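import Pool.Agent.Work.MP_0c3a8f_co.PB.All10

/-!
# MP_0c3a8f_co: the extremal graphs for `F = K_{r+1}` for all sufficiently large `m`
-/

namespace Pool.Agent.Results.MP_0c3a8f_co.CliqueAll

open MP0c3a8f

/-- Let `r ≥ 3`, `q = 1 - 1/r`, `ε > 0`.  There are `N, m₀` such that for all `m ≥ m₀`, with
`e(T_r(n)) ≤ m = e(T_r(n)) + D < e(T_r(n + 1))`: `N_r(m, K_{r+1})` has graphs of maximal spectral
radius (`MxK r m`), and they are exactly the graphs of the family `IsZ r n m` which have the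
largest spectral radius in this family.  `IsZ r n m G`: `G` is of type `P`, `Q` or `R` (`IsYP`,
`IsYQ`, `IsYR`), has `m` edges and parts of sizes `≥ 2` with sum `n` or `n + 1`.  If
`N n^(1/4) ≤ D ≤ (1 - 2/r - ε) q n` then the extremal graphs are exactly those of type `R` with
the parts of `T_r(n)` if `gap r n D ≤ - ε`, and exactly those of type `Q` with the parts of
`T_r(n)` if `gap r n D ≥ ε`.  All graphs of the same type with `m` edges and parts of the same
sizes have the same spectral radius. -/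
theorem result (r : ℕ) (hr : 3 ≤ r) (ε : ℝ) (hε : 0 < ε) :
    (∃ N m₀ : ℕ, ∀ m ≥ m₀, ∃ n D : ℕ,
      (SimpleGraph.turanGraph n r).edgeSet.ncard + D = m ∧
      m < (SimpleGraph.turanGraph (n + 1) r).edgeSet.ncard ∧
      (∃ (k : ℕ) (G : SimpleGraph (Fin k)), MxK r m G) ∧
      (∀ (V : Type) [Fintype V] (G : SimpleGraph V), MxK r m G ↔
        IsZ r n m G ∧ ∀ (U : Type) [Fintype U] (H : SimpleGraph U), IsZ r n m H →
          lam H ≤ lam G) ∧
      (N * Real.sqrt (Real.sqrt n) ≤ D →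
        (D : ℝ) ≤ (1 - 2 / (r : ℝ) - ε) * ((1 - 1 / (r : ℝ)) * n) →
        (gap r n D ≤ -ε → ∀ (V : Type) [Fintype V] (G : SimpleGraph V), MxK r m G ↔
          G.edgeSet.ncard = m ∧ IsYR (fun t : Fin r => tz r n t) G) ∧
        (ε ≤ gap r n D → ∀ (V : Type) [Fintype V] (G : SimpleGraph V), MxK r m G ↔
          G.edgeSet.ncard = m ∧ IsYQ (fun t : Fin r => tz r n t) G))) ∧
    ∀ (m : ℕ) (σ : Fin r → ℕ) (V U : Type) [Fintype V] [Fintype U] (G : SimpleGraph V)
      (H : SimpleGraph U), (∀ t, 2 ≤ σ t) → G.edgeSet.ncard = m → H.edgeSet.ncard = m →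
      (IsYP σ G ∧ IsYP σ H) ∨ (IsYQ σ G ∧ IsYQ σ H) ∨ (IsYR σ G ∧ IsYR σ H) →
      lam G = lam H := by
  exact prfCLQA prfEDG.2 prfTURN bYCV bYIN bUNP bUNQ bUNR bFINE r hr ε hε

end Pool.Agent.Results.MP_0c3a8f_co.CliqueAll
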