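import Pool.Agent.Work.MP_0c3a8f_co.PB.All12

/-!
# MP_0c3a8f_co: the extremal graphs for the generic color-critical `F` for all sufficiently large
`m`
-/

namespace Pool.Agent.Results.MP_0c3a8f_co.GenericAll

open MP0c3a8f

/-- Let `F` be color-critical with `χ(F) = r + 1 ≥ 4`, `q = 1 - 1/r`, and suppose that `F` is not
contained in a graph which consists of a complete `r`-partite graph and one more vertex with
exactly one neighbour in each of two parts (`Gen2`).  Let `ε > 0`.  There are `N, m₀` such that for
all `m ≥ m₀`, with `e(T_r(n)) ≤ m = e(T_r(n)) + D < e(T_r(n + 1))`: `N_r(m, F)` has graphs of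
maximal spectral radius, and they are exactly the graphs of largest spectral radius among the
`F`-free graphs in the family `IsU0 r n m`: graphs with `m` edges and parts of sizes `≥ 2` with sum
`n` or `n + 1`, which are of type `Z` (a complete `r`-partite graph and one more vertex, joined to
at least one vertex of each part) or of type `S` (a complete `r`-partite graph without a star and
one more vertex, joined to one vertex of each part which is not in the star).  If
`N n^(1/4) ≤ D ≤ (1 - 2/r - ε) q n` they are the graphs of largest spectral radius among the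
`F`-free graphs which consist of `T_r(n)` and one more vertex with `D` neighbours, at least one in
each class.  The graph of type `S` with `m` edges and parts of given sizes is unique. -/
theorem result (W : Type) [Fintype W] (F : SimpleGraph W) (r : ℕ) (hr : 3 ≤ r)
    (hχ : F.chromaticNumber = r + 1) (hc : ColorCritical F) (hF : Gen2 r F) (ε : ℝ)
    (hε : 0 < ε) :
    (∃ N m₀ : ℕ, ∀ m ≥ m₀, ∃ n D : ℕ,
      (SimpleGraph.turanGraph n r).edgeSet.ncard + D = m ∧
      m < (SimpleGraph.turanGraph (n + 1) r).edgeSet.ncard ∧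
      (∃ (k : ℕ) (G : SimpleGraph (Fin k)), IsMaximiser r m F G) ∧
      (∀ (V : Type) [Fintype V] (G : SimpleGraph V), IsMaximiser r m F G ↔
        (IsU0 r n m G ∧ F.Free G) ∧ ∀ (U : Type) [Fintype U] (H : SimpleGraph U),
          IsU0 r n m H → F.Free H → lam H ≤ lam G) ∧
      (N * Real.sqrt (Real.sqrt n) ≤ D →
        (D : ℝ) ≤ (1 - 2 / (r : ℝ) - ε) * ((1 - 1 / (r : ℝ)) * n) →
        ∀ (V : Type) [Fintype V] (G : SimpleGraph V), IsMaximiser r m F G ↔
          (IsG0 r n D G ∧ F.Free G) ∧ ∀ (U : Type) [Fintype U] (H : SimpleGraph U),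
            IsG0 r n D H → F.Free H → lam H ≤ lam G)) ∧
    ∀ (m : ℕ) (σ : Fin r → ℕ) (V U : Type) [Fintype V] [Fintype U] (G : SimpleGraph V)
      (H : SimpleGraph U), G.edgeSet.ncard = m → H.edgeSet.ncard = m → IsWS σ G → IsWS σ H →
      Nonempty (G ≃g H) := by
  obtain ⟨hcrit, hncol, hcol⟩ := prfCRT W F r hχ hc
  exact ⟨bGENA W F r ε hr hcrit hcol hncol hF hε, fun m σ V U _ _ G H h1 h2 h3 h4 =>
    bUNS r m σ V U G H hr h1 h2 h3 h4⟩

end Pool.Agent.Results.MP_0c3a8f_co.GenericAll
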