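import Pool.Agent.Work.MP_0c3a8f_co.PB.All12

/-!
# MP_0c3a8f_co: the extremal graphs for a class of color-critical `F` which contains the graphs
`K_{1,1,s,...,s}` for all sufficiently large `m`
-/

namespace Pool.Agent.Results.MP_0c3a8f_co.MultipartiteAll

open MP0c3a8f

/-- Let `F` be color-critical with `χ(F) = r + 1 ≥ 4`, `q = 1 - 1/r`, `s ≥ 2`, and suppose that
among the graphs which consist of a complete `r`-partite graph with large parts and one more
vertex with a neighbour in every part exactly those with less than `s` of these neighbours in two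
parts are `F`-free (`Fs`; for example `F = K_{1,1,s,...,s}`).  Let `ε > 0`.  There are `N, m₀` such
that for all `m ≥ m₀`, with `e(T_r(n)) ≤ m = e(T_r(n)) + D < e(T_r(n + 1))`: `N_r(m, F)` has graphs
of maximal spectral radius, and they are exactly the graphs of largest spectral radius in the
family `IsUs r n m s`: graphs with `m` edges and parts of sizes `≥ s` with sum `n` or `n + 1`,
which are of type `V` (`IsVZ`) or `S` (`IsWS`).  If `N n^(1/4) ≤ D ≤ (1 - 2/r - ε) q n`, the
maximisers are exactly the graphs of type `V` with the parts of `T_r(n)`.  The graph of type `V`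
and the graph of type `S` with `m` edges and parts of given sizes are unique. -/
theorem result (r s : ℕ) (hr : 3 ≤ r) (hs : 2 ≤ s) :
    ((Kms r s).chromaticNumber = r + 1 ∧ ColorCritical (Kms r s) ∧
      Fs r s (s + 1) (Kms r s)) ∧
    (∀ (W : Type) [Fintype W] (F : SimpleGraph W) (s₁ : ℕ), F.chromaticNumber = r + 1 →
      ColorCritical F → Fs r s s₁ F → ∀ ε > (0 : ℝ), ∃ N m₀ : ℕ, ∀ m ≥ m₀, ∃ n D : ℕ,
        (SimpleGraph.turanGraph n r).edgeSet.ncard + D = m ∧
        m < (SimpleGraph.turanGraph (n + 1) r).edgeSet.ncard ∧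
        (∃ (k : ℕ) (G : SimpleGraph (Fin k)), IsMaximiser r m F G) ∧
        (∀ (V : Type) [Fintype V] (G : SimpleGraph V), IsMaximiser r m F G ↔
          IsUs r n m s G ∧ ∀ (U : Type) [Fintype U] (H : SimpleGraph U), IsUs r n m s H →
            lam H ≤ lam G) ∧
        (N * Real.sqrt (Real.sqrt n) ≤ D →
          (D : ℝ) ≤ (1 - 2 / (r : ℝ) - ε) * ((1 - 1 / (r : ℝ)) * n) →
          ∀ (V : Type) [Fintype V] (G : SimpleGraph V), IsMaximiser r m F G ↔
            G.edgeSet.ncard = m ∧ IsVZ s (fun t : Fin r => tz r n t) G)) ∧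
    ∀ (m : ℕ) (σ : Fin r → ℕ) (V U : Type) [Fintype V] [Fintype U] (G : SimpleGraph V)
      (H : SimpleGraph U), (∀ t, s ≤ σ t) → G.edgeSet.ncard = m → H.edgeSet.ncard = m →
      (IsVZ s σ G ∧ IsVZ s σ H) ∨ (IsWS σ G ∧ IsWS σ H) → Nonempty (G ≃g H) := by
  refine ⟨prfMPF r s hr hs, ?_, ?_⟩
  · intro W _ F s₁ hχ hc hF ε hε
    obtain ⟨hcrit, hncol, hcol⟩ := prfCRT W F r hχ hc
    exact bFINF W F r s s₁ ε hr hs hcrit hcol hncol hF hε
  · intro m σ V U _ _ G H hσ h1 h2 h
    rcases h with ⟨h3, h4⟩ | ⟨h3, h4⟩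
    · exact bUNV r s m σ V U G H hr hs hσ h1 h2 h3 h4
    · exact bUNS r m σ V U G H hr h1 h2 h3 h4

end Pool.Agent.Results.MP_0c3a8f_co.MultipartiteAll
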