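import Pool.Agent.Work.MP_0c3a8f_co.PB.All11
import Pool.Agent.Work.MP_0c3a8f_co.PB.ItemFINM

/-!
# MP_0c3a8f_co: the structure of the extremal graphs for all color-critical `F`, all large `m`
-/

namespace Pool.Agent.Results.MP_0c3a8f_co.StructureAll

open MP0c3a8f

/-- Let `F` be color-critical with `χ(F) = r + 1 ≥ 4`, `q = 1 - 1/r`.  There is `N` such
that for all `η > 0`, `N'` and all large `m` there are `n, D, B` with
`m = e(T_r(n)) + D = e(T_r(n + 1)) - B`, `B ≥ 1`, such that `N_r(m, F)` has graphs of maximal
spectral radius, and for each such graph `G` the number `Def r G = 2qm - λ(G)²` is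
`min (2D(q - D/n)) (AB r (n + 1) B)` up to `N n^(1/4)`, and `G` is a complete `r`-partite graph and
one special vertex `w` up to `N` edges: either `KI` (the parts have `n` vertices, up to `N` missing
pairs, and up to `N` outer edges not at `w`; the sizes of `T_r(n)` if `D ≥ N`; the neighbours of
`w` are spread greedily up to `N`), or `KII` (the parts have `n + 1` vertices, up to `N n^(1/4)`
missing pairs and outer edges, either no missing pairs and all but `N` outer edges at `w`, or
all but `N` missing pairs at `w` and up to `N` outer edges, and the sizes of the parts are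
known up to a smaller order).  Moreover `Def r G` is the cost `Cs` up to `η`, and no graph
in `N_r(m, F)` of this shape has a smaller cost, up to `η`. -/
theorem result (W : Type) [Fintype W] (F : SimpleGraph W) (r : ℕ) (hr : 3 ≤ r)
    (hχ : F.chromaticNumber = r + 1) (hc : ColorCritical F) :
    ∃ N : ℕ, ∀ (η : ℝ) (N' : ℕ), 0 < η → ∃ m₀ : ℕ, ∀ m ≥ m₀, ∃ n D B : ℕ,
      (SimpleGraph.turanGraph n r).edgeSet.ncard + D = m ∧
      m + B = (SimpleGraph.turanGraph (n + 1) r).edgeSet.ncard ∧ 1 ≤ B ∧
      (∃ (k : ℕ) (G : SimpleGraph (Fin k)), IsMaximiser r m F G) ∧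
      ∀ (V : Type) [Fintype V] (G : SimpleGraph V), IsMaximiser r m F G →
        |Def r G - min (2 * D * (1 - 1 / (r : ℝ) - D / n)) (AB r (n + 1) B)|
          ≤ N * Real.sqrt (Real.sqrt n) ∧
        ∃ (g : V → Option (Fin r)) (w : V),
          (KI n D N G g w ∧ |Def r G - Cs m G g {w}| ≤ η ∧
            LowC r m n N' η F (Cs m G g {w})) ∨
          (KII (n + 1) B N G g w ∧ |Def r G - Cs m G g ∅| ≤ η ∧
            LowC r m n N' η F (Cs m G g ∅)) := by
  obtain ⟨hcrit, hncol, hcol⟩ := prfCRT W F r hχ hc
  exact prfFINM prfP prfDEV bFINK bBDU bUPL bLOL W F r hr hcrit hcol hncol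

end Pool.Agent.Results.MP_0c3a8f_co.StructureAll
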